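import Mathlib

set_option autoImplicit false
set_option linter.all false

namespace Pool.Agent.Results.MP_28691e_co.ThreeColourable

open Finset

/-- A `2→1` hypergraph on the vertex set `V`: a hyperedge is a pair (tail, head), the tail being a
set of two vertices and the head a vertex outside the tail. -/
structure TwoOneHypergraph (V : Type) where
  edges : Set (Finset V × V)
  card_tail : ∀ e ∈ edges, e.1.card = 2
  head_notMem : ∀ e ∈ edges, e.2 ∉ e.1

/-- `H` avoids `I₀`: no two hyperedges `ab → e` and `cd → e` with `a,b,c,d,e` distinct, that is, no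
two hyperedges with the same head have disjoint tails. -/
def AvoidsI0 {V : Type} (H : TwoOneHypergraph V) : Prop :=
  ¬ ∃ a b c d e : V, [a, b, c, d, e].Nodup ∧
    (∃ s, (s, e) ∈ H.edges ∧ ∀ x, x ∈ s ↔ x = a ∨ x = b) ∧
    (∃ t, (t, e) ∈ H.edges ∧ ∀ x, x ∈ t ↔ x = c ∨ x = d)

/-- A proper colouring: no hyperedge is monochromatic. -/
def IsProper {V : Type} (H : TwoOneHypergraph V) {k : ℕ} (col : V → Fin k) : Prop :=
  ∀ e ∈ H.edges, ¬ ∀ x ∈ e.1, col x = col e.2

/-! ### Good sets -/

section
variable {V : Type} [DecidableEq V]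

def Good (N : V → Finset V) (A : Finset V) : Prop :=
  ∀ a b t : V → ℕ, (∀ v ∈ A, a v + b v + (N v ∩ A).card ≤ 2 * t v + 1) →
    ∃ x : V → Bool, ∀ v ∈ A,
      (x v = true → a v + ((N v ∩ A).filter (fun w => x w = true)).card ≤ t v) ∧
      (x v = false → b v + ((N v ∩ A).filter (fun w => x w = false)).card ≤ t v)

theorem good_empty (N : V → Finset V) : Good N ∅ := by
  intro a b t _
  exact ⟨fun _ => true, by simp⟩

theorem inter_insert_card (N : V → Finset V) (A : Finset V) {v : V} (hv : v ∉ A) (w : V)
    (p : V → Prop) [DecidablePred p] :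
    ((N w ∩ insert v A).filter p).card =
      ((N w ∩ A).filter p).card + (if v ∈ N w ∧ p v then 1 else 0) := by
  by_cases h : v ∈ N w
  · rw [Finset.inter_insert_of_mem h]
    rw [Finset.filter_insert]
    by_cases hp : p v
    · rw [if_pos hp, if_pos ⟨h, hp⟩, Finset.card_insert_of_notMem]
      simp [hv]
    · rw [if_neg hp, if_neg (by tauto)]; rfl
  · rw [Finset.inter_insert_of_notMem h, if_neg (by tauto)]; rfl

theorem inter_insert_card' (N : V → Finset V) (A : Finset V) {v : V} (hv : v ∉ A) (w : V) :
    (N w ∩ insert v A).card = (N w ∩ A).card + (if v ∈ N w then 1 else 0) := by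
  by_cases h : v ∈ N w
  · rw [Finset.inter_insert_of_mem h, if_pos h, Finset.card_insert_of_notMem]
    simp [hv]
  · rw [Finset.inter_insert_of_notMem h, if_neg h]; rfl

theorem good_insert_sink (N : V → Finset V) (A : Finset V) (v : V) (hv : v ∉ A) (hvN : v ∉ N v)
    (hA : Good N A) (h : ∀ w ∈ A, w ∉ N v) : Good N (insert v A) := by
  intro a b t hab
  have hNv : N v ∩ insert v A = ∅ := by
    ext w
    simp only [Finset.mem_inter, Finset.mem_insert, Finset.notMem_empty, iff_false, not_and, not_or]
    intro hw
    exact ⟨fun e => hvN (e ▸ hw), fun hwA => h w hwA hw⟩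
  have h0 := hab v (Finset.mem_insert_self v A)
  rw [hNv, Finset.card_empty] at h0
  obtain ⟨c, hc⟩ : ∃ c : Bool, (c = true → a v ≤ t v) ∧ (c = false → b v ≤ t v) := by
    by_cases ha : a v ≤ t v
    · exact ⟨true, fun _ => ha, by simp⟩
    · exact ⟨false, by simp, fun _ => by omega⟩
  obtain ⟨x, hx⟩ := hA (fun w => a w + if v ∈ N w ∧ c = true then 1 else 0)
    (fun w => b w + if v ∈ N w ∧ c = false then 1 else 0) t (by
      intro w hw
      have h1 := hab w (Finset.mem_insert_of_mem hw)
      rw [inter_insert_card' N A hv] at h1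
      cases c <;> by_cases h2 : v ∈ N w <;> simp [h2] at h1 ⊢ <;> omega)
  refine ⟨fun w => if w = v then c else x w, ?_⟩
  have hfil : ∀ (w : V) (c' : Bool), ((N w ∩ insert v A).filter
      (fun u => (if u = v then c else x u) = c')).card =
      ((N w ∩ A).filter (fun u => x u = c')).card + (if v ∈ N w ∧ c = c' then 1 else 0) := by
    intro w c'
    rw [inter_insert_card N A hv w]
    congr 1
    · congr 1
      apply Finset.filter_congr
      intro u hu
      have : u ≠ v := by
        rintro rfl
        exact hv (Finset.mem_inter.1 hu).2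
      simp [this]
    · simp
  intro w hw
  rw [hfil, hfil]
  rcases Finset.mem_insert.1 hw with rfl | hw'
  · have h3 : N w ∩ A = ∅ := by
      ext u
      simp only [Finset.mem_inter, Finset.notMem_empty, iff_false, not_and]
      intro hu huA
      exact h u huA hu
    simp only [if_true, h3, Finset.filter_empty, Finset.card_empty, hvN, false_and, if_false]
    exact hc
  · have hwv : w ≠ v := by rintro rfl; exact hv hw'
    simp only [hwv, if_false]
    have := hx w hw'
    constructor
    · intro h4
      have := this.1 h4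
      omega
    · intro h4
      have := this.2 h4
      omega

theorem good_insert_source (N : V → Finset V) (A : Finset V) (v : V) (hv : v ∉ A) (hvN : v ∉ N v)
    (hA : Good N A) (h : ∀ w ∈ A, v ∉ N w) : Good N (insert v A) := by
  intro a b t hab
  obtain ⟨x, hx⟩ := hA a b t (by
      intro w hw
      have h1 := hab w (Finset.mem_insert_of_mem hw)
      rw [inter_insert_card' N A hv, if_neg (h w hw)] at h1
      omega)
  have h0 := hab v (Finset.mem_insert_self v A)
  rw [inter_insert_card' N A hv, if_neg hvN] at h0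
  have hsum : ((N v ∩ A).filter (fun u => x u = true)).card +
      ((N v ∩ A).filter (fun u => x u = false)).card = (N v ∩ A).card := by
    have := Finset.card_filter_add_card_filter_not (s := N v ∩ A) (fun u => x u = true)
    simpa using this
  obtain ⟨c, hc⟩ : ∃ c : Bool,
      (c = true → a v + ((N v ∩ A).filter (fun u => x u = true)).card ≤ t v) ∧
      (c = false → b v + ((N v ∩ A).filter (fun u => x u = false)).card ≤ t v) := by
    by_cases ha : a v + ((N v ∩ A).filter (fun u => x u = true)).card ≤ t v
    · exact ⟨true, fun _ => ha, by simp⟩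
    · exact ⟨false, by simp, fun _ => by omega⟩
  refine ⟨fun w => if w = v then c else x w, ?_⟩
  have hfil : ∀ (w : V), v ∉ N w → ∀ (c' : Bool), ((N w ∩ insert v A).filter
      (fun u => (if u = v then c else x u) = c')).card =
      ((N w ∩ A).filter (fun u => x u = c')).card := by
    intro w hw c'
    rw [inter_insert_card N A hv w, if_neg (by tauto), Nat.add_zero]
    congr 1
    apply Finset.filter_congr
    intro u hu
    have : u ≠ v := by
      rintro rfl
      exact hv (Finset.mem_inter.1 hu).2
    simp [this]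
  intro w hw
  rcases Finset.mem_insert.1 hw with rfl | hw'
  · rw [hfil w hvN, hfil w hvN]
    simp only [if_true]
    exact hc
  · rw [hfil w (h w hw'), hfil w (h w hw')]
    have hwv : w ≠ v := by rintro rfl; exact hv hw'
    simp only [hwv, if_false]
    exact hx w hw'

theorem good_union (N : V → Finset V) (A B : Finset V) (hA : Good N A) (hB : Good N B)
    (hd : Disjoint A B)
    (h1 : ∀ v ∈ A, ∀ w ∈ B, w ∉ N v) (h2 : ∀ v ∈ B, ∀ w ∈ A, w ∉ N v) : Good N (A ∪ B) := by
  intro a b t hab
  have e1 : ∀ v ∈ A, N v ∩ (A ∪ B) = N v ∩ A := by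
    intro v hv
    ext w
    simp only [Finset.mem_inter, Finset.mem_union]
    constructor
    · rintro ⟨hw, h | h⟩
      · exact ⟨hw, h⟩
      · exact absurd hw (h1 v hv w h)
    · rintro ⟨hw, h⟩; exact ⟨hw, Or.inl h⟩
  have e2 : ∀ v ∈ B, N v ∩ (A ∪ B) = N v ∩ B := by
    intro v hv
    ext w
    simp only [Finset.mem_inter, Finset.mem_union]
    constructor
    · rintro ⟨hw, h | h⟩
      · exact absurd hw (h2 v hv w h)
      · exact ⟨hw, h⟩
    · rintro ⟨hw, h⟩; exact ⟨hw, Or.inr h⟩
  obtain ⟨x, hx⟩ := hA a b t (by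
    intro v hv
    have := hab v (Finset.mem_union_left _ hv)
    rwa [e1 v hv] at this)
  obtain ⟨y, hy⟩ := hB a b t (by
    intro v hv
    have := hab v (Finset.mem_union_right _ hv)
    rwa [e2 v hv] at this)
  refine ⟨fun w => if w ∈ A then x w else y w, ?_⟩
  intro v hv
  rcases Finset.mem_union.1 hv with hv | hv
  · rw [e1 v hv]
    have e3 : ∀ c : Bool, (N v ∩ A).filter (fun w => (if w ∈ A then x w else y w) = c) =
        (N v ∩ A).filter (fun w => x w = c) := by
      intro c
      apply Finset.filter_congr
      intro u hu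
      simp [(Finset.mem_inter.1 hu).2]
    rw [e3, e3]
    simpa [hv] using hx v hv
  · rw [e2 v hv]
    have hnA : ∀ w ∈ B, w ∉ A := fun w hw hwA => (Finset.disjoint_left.1 hd hwA) hw
    have e3 : ∀ c : Bool, (N v ∩ B).filter (fun w => (if w ∈ A then x w else y w) = c) =
        (N v ∩ B).filter (fun w => y w = c) := by
      intro c
      apply Finset.filter_congr
      intro u hu
      simp [hnA u (Finset.mem_inter.1 hu).2]
    rw [e3, e3]
    simpa [hnA v hv] using hy v hv

theorem good_singleton (N : V → Finset V) (v : V) (hv : v ∉ N v) : Good N {v} := by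
  have := good_insert_sink N ∅ v (by simp) hv (good_empty N) (by simp)
  simpa using this

theorem good_pair (N : V → Finset V) (p q : V) (hpq : p ≠ q) (hp : p ∉ N p) (hq : q ∉ N q) :
    Good N {p, q} := by
  by_cases h1 : q ∈ N p
  · by_cases h2 : p ∈ N q
    · intro a b t hab
      have e1 : N p ∩ {p, q} = {q} := by
        ext w
        simp only [Finset.mem_inter, Finset.mem_insert, Finset.mem_singleton]
        constructor
        · rintro ⟨h, rfl | rfl⟩
          · exact absurd h hp
          · rfl
        · rintro rfl; exact ⟨h1, Or.inr rfl⟩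
      have e2 : N q ∩ {p, q} = {p} := by
        ext w
        simp only [Finset.mem_inter, Finset.mem_insert, Finset.mem_singleton]
        constructor
        · rintro ⟨h, rfl | rfl⟩
          · rfl
          · exact absurd h hq
        · rintro rfl; exact ⟨h2, Or.inl rfl⟩
      have hp' := hab p (by simp)
      have hq' := hab q (by simp)
      rw [e1] at hp'
      rw [e2] at hq'
      simp only [Finset.card_singleton] at hp' hq'
      have key : ∃ c d : Bool,
          ((c = true → a p + (if d = true then 1 else 0) ≤ t p) ∧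
            (c = false → b p + (if d = false then 1 else 0) ≤ t p)) ∧
          ((d = true → a q + (if c = true then 1 else 0) ≤ t q) ∧
            (d = false → b q + (if c = false then 1 else 0) ≤ t q)) := by
        by_cases k1 : a p ≤ t p ∧ b q ≤ t q
        · exact ⟨true, false, by simp [k1.1], by simp [k1.2]⟩
        · by_cases k2 : b p ≤ t p ∧ a q ≤ t q
          · exact ⟨false, true, by simp [k2.1], by simp [k2.2]⟩
          · rw [not_and_or] at k1 k2
            rcases k1 with k1 | k1
            · rcases k2 with k2 | k2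
              · omega
              · exact ⟨false, false, by simp; omega, by simp; omega⟩
            · rcases k2 with k2 | k2
              · exact ⟨true, true, by simp; omega, by simp; omega⟩
              · omega
      obtain ⟨c, d, hc, hd⟩ := key
      refine ⟨fun w => if w = p then c else d, ?_⟩
      intro v hv
      rcases Finset.mem_insert.1 hv with rfl | hv
      · rw [e1, Finset.filter_singleton, Finset.filter_singleton]
        simp only [if_true, hpq.symm, if_false]
        constructor
        · intro h; have := hc.1 h; cases d <;> simpa using this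
        · intro h; have := hc.2 h; cases d <;> simpa using this
      · rw [Finset.mem_singleton] at hv
        subst hv
        rw [e2, Finset.filter_singleton, Finset.filter_singleton]
        simp only [if_true, hpq.symm, if_false]
        constructor
        · intro h; have := hd.1 h; cases c <;> simpa using this
        · intro h; have := hd.2 h; cases c <;> simpa using this
    · -- p ∉ N q: q is a sink towards {p}; insert p as a source
      have := good_insert_source N {q} p (by simpa using hpq) hp (good_singleton N q hq)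
        (by intro w hw; rw [Finset.mem_singleton] at hw; subst hw; exact h2)
      simpa using this
  · have := good_insert_sink N {q} p (by simpa using hpq) hp (good_singleton N q hq)
        (by intro w hw; rw [Finset.mem_singleton] at hw; subst hw; exact h1)
    simpa using this


/-! ### Partitions into three good sets -/

def Valid (N : V → Finset V) (S : Finset V) (f : V → Fin 3) : Prop :=
  ∀ i : Fin 3, Good N (S.filter (fun v => f v = i))

theorem valid_congr (N : V → Finset V) (S : Finset V) (f g : V → Fin 3)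
    (h : ∀ v ∈ S, f v = g v) (hf : Valid N S f) : Valid N S g := by
  intro i
  have : S.filter (fun v => g v = i) = S.filter (fun v => f v = i) := by
    apply Finset.filter_congr
    intro v hv
    rw [h v hv]
  rw [this]
  exact hf i

theorem valid_insert (N : V → Finset V) (S : Finset V) (v : V) (hv : v ∉ S) (hvN : v ∉ N v)
    (f : V → Fin 3) (hf : Valid N S f) (i : Fin 3)
    (h : (∀ w ∈ S, w ∈ N v → f w ≠ i) ∨ (∀ w ∈ S, v ∈ N w → f w ≠ i)) :
    Valid N (insert v S) (Function.update f v i) := by
  intro j
  have hS : S.filter (fun w => Function.update f v i w = j) = S.filter (fun w => f w = j) := by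
    apply Finset.filter_congr
    intro w hw
    rw [Function.update_of_ne]
    rintro rfl; exact hv hw
  rw [Finset.filter_insert, hS, Function.update_self]
  by_cases hij : i = j
  · subst hij
    rw [if_pos rfl]
    have hv' : v ∉ S.filter (fun w => f w = i) := fun h' => hv (Finset.mem_filter.1 h').1
    rcases h with h | h
    · refine good_insert_sink N _ v hv' hvN (hf i) ?_
      intro w hw hwN
      exact h w (Finset.mem_filter.1 hw).1 hwN (Finset.mem_filter.1 hw).2
    · refine good_insert_source N _ v hv' hvN (hf i) ?_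
      intro w hw hwN
      exact h w (Finset.mem_filter.1 hw).1 hwN (Finset.mem_filter.1 hw).2
  · rw [if_neg hij]
    exact hf j

theorem exists_missing (B : Finset V) (f : V → Fin 3) (h : (B.image f).card ≤ 2) :
    ∃ i : Fin 3, ∀ w ∈ B, f w ≠ i := by
  by_contra hcon
  push Not at hcon
  have : B.image f = Finset.univ := by
    ext i
    simp only [Finset.mem_image, Finset.mem_univ, iff_true]
    exact hcon i
  rw [this] at h
  simp at h

theorem place (N : V → Finset V) (S : Finset V) (v : V) (hv : v ∉ S) (hvN : v ∉ N v)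
    (f : V → Fin 3) (hf : Valid N S f)
    (h : (N v ∩ S).card ≤ 2 ∨ (S.filter (fun w => v ∈ N w)).card ≤ 2) :
    ∃ i, Valid N (insert v S) (Function.update f v i) := by
  rcases h with h | h
  · obtain ⟨i, hi⟩ := exists_missing (N v ∩ S) f (le_trans Finset.card_image_le h)
    exact ⟨i, valid_insert N S v hv hvN f hf i (Or.inl fun w hw hwN =>
      hi w (Finset.mem_inter.2 ⟨hwN, hw⟩))⟩
  · obtain ⟨i, hi⟩ := exists_missing (S.filter (fun w => v ∈ N w)) f
      (le_trans Finset.card_image_le h)
    exact ⟨i, valid_insert N S v hv hvN f hf i (Or.inr fun w hw hwN =>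
      hi w (Finset.mem_filter.2 ⟨hw, hwN⟩))⟩

theorem image_card_le (B : Finset V) (f : V → Fin 3) (hB : B.card ≤ 3) (p q : V) (hp : p ∈ B)
    (hq : q ∈ B) (hpq : p ≠ q) (h : f p = f q) : (B.image f).card ≤ 2 := by
  have : B.image f = (B.erase q).image f := by
    ext i
    simp only [Finset.mem_image, Finset.mem_erase]
    constructor
    · rintro ⟨w, hw, rfl⟩
      by_cases hwq : w = q
      · exact ⟨p, ⟨hpq, hp⟩, by rw [h, hwq]⟩
      · exact ⟨w, ⟨hwq, hw⟩, rfl⟩
    · rintro ⟨w, ⟨_, hw⟩, rfl⟩
      exact ⟨w, hw, rfl⟩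
  rw [this]
  refine le_trans Finset.card_image_le ?_
  rw [Finset.card_erase_of_mem hq]
  omega

theorem place_last (N : V → Finset V) (S : Finset V) (u : V) (hu : u ∈ S) (huN : u ∉ N u)
    (hout : (N u ∩ S).card ≤ 3) (hin : (S.filter (fun w => u ∈ N w)).card ≤ 3)
    (f : V → Fin 3) (hf : Valid N (S.erase u) f) (p q : V) (hp : p ∈ S) (hq : q ∈ S)
    (hpq : p ≠ q) (hfpq : f p = f q)
    (h : (p ∈ N u ∧ q ∈ N u) ∨ (u ∈ N p ∧ u ∈ N q)) :
    ∃ f', Valid N S f' := by
  have key : ∃ i, (∀ w ∈ S.erase u, w ∈ N u → f w ≠ i) ∨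
      (∀ w ∈ S.erase u, u ∈ N w → f w ≠ i) := by
    rcases h with ⟨h1, h2⟩ | ⟨h1, h2⟩
    · obtain ⟨i, hi⟩ := exists_missing (N u ∩ S) f
        (image_card_le _ f hout p q (Finset.mem_inter.2 ⟨h1, hp⟩) (Finset.mem_inter.2 ⟨h2, hq⟩)
          hpq hfpq)
      exact ⟨i, Or.inl fun w hw hwN => hi w (Finset.mem_inter.2 ⟨hwN, Finset.mem_of_mem_erase hw⟩)⟩
    · obtain ⟨i, hi⟩ := exists_missing (S.filter (fun w => u ∈ N w)) f
        (image_card_le _ f hin p q (Finset.mem_filter.2 ⟨hp, h1⟩) (Finset.mem_filter.2 ⟨hq, h2⟩)
          hpq hfpq)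
      exact ⟨i, Or.inr fun w hw hwN =>
        hi w (Finset.mem_filter.2 ⟨Finset.mem_of_mem_erase hw, hwN⟩)⟩
  obtain ⟨i, hi⟩ := key
  have := valid_insert N (S.erase u) u (Finset.notMem_erase u S) huN f hf i hi
  rw [Finset.insert_erase hu] at this
  exact ⟨_, this⟩

theorem extend_rank (N : V → Finset V) (hN : ∀ v, v ∉ N v) (S : Finset V)
    (hout : ∀ v ∈ S, (N v ∩ S).card ≤ 3) (hin : ∀ v ∈ S, (S.filter (fun w => v ∈ N w)).card ≤ 3)
    (u : V) (hu : u ∈ S) (ρ : V → ℕ) : ∀ (n : ℕ) (T : Finset V) (f : V → Fin 3), T ⊆ S → u ∉ T →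
      (S \ T).card = n + 1 → Valid N T f →
      (∀ w ∈ S, w ∉ T → w ≠ u → ∃ w' ∈ S, w' ∉ T ∧ ρ w' < ρ w ∧ (w' ∈ N w ∨ w ∈ N w')) →
      ∃ f' : V → Fin 3, Valid N (S.erase u) f' ∧ ∀ v ∈ T, f' v = f v := by
  intro n
  induction n with
  | zero =>
    intro T f hT huT hcard hf _
    have h1 : S \ T = {u} := by
      rw [Nat.zero_add, Finset.card_eq_one] at hcard
      obtain ⟨z, hz⟩ := hcard
      have : u ∈ S \ T := Finset.mem_sdiff.2 ⟨hu, huT⟩
      rw [hz, Finset.mem_singleton] at this
      rw [hz, this]
    have h2 : S.erase u = T := by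
      ext w
      rw [Finset.mem_erase]
      constructor
      · rintro ⟨hwu, hw⟩
        by_contra hwT
        have : w ∈ S \ T := Finset.mem_sdiff.2 ⟨hw, hwT⟩
        rw [h1, Finset.mem_singleton] at this
        exact hwu this
      · intro hw
        exact ⟨by rintro rfl; exact huT hw, hT hw⟩
    exact ⟨f, by rwa [h2], fun _ _ => rfl⟩
  | succ n ih =>
    intro T f hT huT hcard hf hρ
    have hne : ((S \ T).erase u).Nonempty := by
      rw [← Finset.card_pos, Finset.card_erase_of_mem (Finset.mem_sdiff.2 ⟨hu, huT⟩), hcard]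
      omega
    obtain ⟨w, hw, hmax⟩ := Finset.exists_max_image _ ρ hne
    have hwu : w ≠ u := Finset.ne_of_mem_erase hw
    have hw' := Finset.mem_sdiff.1 (Finset.mem_of_mem_erase hw)
    obtain ⟨z, hzS, hzT, _, hz⟩ := hρ w hw'.1 hw'.2 hwu
    have hpl : (N w ∩ T).card ≤ 2 ∨ (T.filter (fun y => w ∈ N y)).card ≤ 2 := by
      rcases hz with hz | hz
      · left
        have hsub : N w ∩ T ⊆ (N w ∩ S).erase z := by
          intro y hy
          rw [Finset.mem_inter] at hy
          rw [Finset.mem_erase, Finset.mem_inter]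
          exact ⟨by rintro rfl; exact hzT hy.2, hy.1, hT hy.2⟩
        have := Finset.card_le_card hsub
        rw [Finset.card_erase_of_mem (Finset.mem_inter.2 ⟨hz, hzS⟩)] at this
        have := hout w hw'.1
        omega
      · right
        have hsub : T.filter (fun y => w ∈ N y) ⊆ (S.filter (fun y => w ∈ N y)).erase z := by
          intro y hy
          rw [Finset.mem_filter] at hy
          rw [Finset.mem_erase, Finset.mem_filter]
          exact ⟨by rintro rfl; exact hzT hy.1, hT hy.1, hy.2⟩
        have := Finset.card_le_card hsub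
        rw [Finset.card_erase_of_mem (Finset.mem_filter.2 ⟨hzS, hz⟩)] at this
        have := hin w hw'.1
        omega
    obtain ⟨i, hi⟩ := place N T w hw'.2 (hN w) f hf hpl
    have hsd : S \ insert w T = (S \ T).erase w := by
      ext y
      simp only [Finset.mem_sdiff, Finset.mem_insert, Finset.mem_erase]
      tauto
    obtain ⟨f', hf', hf''⟩ := ih (insert w T) (Function.update f w i)
      (Finset.insert_subset hw'.1 hT)
      (by
        rw [Finset.mem_insert]
        rintro (h | h)
        · exact hwu h.symm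
        · exact huT h)
      (by
        rw [hsd, Finset.card_erase_of_mem (Finset.mem_sdiff.2 hw'), hcard]
        omega) hi
      (by
        intro y hyS hyT hyu
        rw [Finset.mem_insert, not_or] at hyT
        obtain ⟨y', hy'S, hy'T, hlt, hy'⟩ := hρ y hyS hyT.2 hyu
        refine ⟨y', hy'S, ?_, hlt, hy'⟩
        rw [Finset.mem_insert, not_or]
        refine ⟨?_, hy'T⟩
        rintro rfl
        have := hmax y (Finset.mem_erase.2 ⟨hyu, Finset.mem_sdiff.2 ⟨hyS, hyT.2⟩⟩)
        omega)
    refine ⟨f', hf', fun v hv => ?_⟩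
    rw [hf'' v (Finset.mem_insert_of_mem hv), Function.update_of_ne]
    rintro rfl
    exact hw'.2 hv

/-! ### Cycles -/

/-- cyclic structure on a subset -/
structure Cyc (N : V → Finset V) (S : Finset V) (n : ℕ) (c : Fin (n + 1) → V) : Prop where
  inj : Function.Injective c
  mem : ∀ i, c i ∈ S
  arc : ∀ i, c (i + 1) ∈ N (c i)

theorem Cyc.rotate {N : V → Finset V} {S : Finset V} {n : ℕ} {c : Fin (n + 1) → V}
    (h : Cyc N S n c) (a : Fin (n + 1)) : Cyc N S n (fun i => c (i + a)) where
  inj := by
    intro i j hij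
    have := h.inj hij
    exact add_right_cancel this
  mem := fun i => h.mem _
  arc := by
    intro i
    have := h.arc (i + a)
    rwa [add_right_comm] at this

def rng {n : ℕ} (c : Fin (n + 1) → V) : Finset V := Finset.univ.image c

theorem mem_rng {n : ℕ} (c : Fin (n + 1) → V) (v : V) : v ∈ rng c ↔ ∃ i, c i = v := by
  simp [rng]

theorem rng_rotate {n : ℕ} (c : Fin (n + 1) → V) (a : Fin (n + 1)) :
    rng (fun i => c (i + a)) = rng c := by
  ext v
  rw [mem_rng, mem_rng]
  constructor
  · rintro ⟨i, hi⟩; exact ⟨_, hi⟩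
  · rintro ⟨i, hi⟩; exact ⟨i - a, by simpa using hi⟩

/-- the success lemma with `u = c 0` -/
theorem success0 (N : V → Finset V) (hN : ∀ v, v ∉ N v) (S : Finset V)
    (hout : ∀ v ∈ S, (N v ∩ S).card ≤ 3) (hin : ∀ v ∈ S, (S.filter (fun w => v ∈ N w)).card ≤ 3)
    {n : ℕ} (c : Fin (n + 1) → V) (hc : Cyc N S n c)
    (f₀ : V → Fin 3) (hf₀ : Valid N (S \ rng c) f₀)
    (k : Fin (n + 1)) (hk : k ≠ 0) (u' : V) (hu'S : u' ∈ S) (hu' : u' ∉ rng c)
    (hfull : (∀ w ∈ S, w ∈ N (c k) → w ∈ rng c) ∨ (∀ w ∈ S, c k ∈ N w → w ∈ rng c))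
    (h : (c k ∈ N (c 0) ∧ u' ∈ N (c 0)) ∨ (c 0 ∈ N (c k) ∧ c 0 ∈ N u')) :
    ∃ f, Valid N S f := by
  have hk0 : 0 < k.val := Nat.pos_of_ne_zero (fun h => hk (Fin.ext h))
  have hxT : c k ∉ S \ rng c := by
    rw [Finset.mem_sdiff, mem_rng]
    intro h
    exact h.2 ⟨k, rfl⟩
  have hv1 := valid_insert N (S \ rng c) (c k) hxT (hN _) f₀ hf₀ (f₀ u') (by
    rcases hfull with hfull | hfull
    · left
      intro w hw hwN
      rw [Finset.mem_sdiff] at hw
      exact absurd (hfull w hw.1 hwN) hw.2
    · right
      intro w hw hwN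
      rw [Finset.mem_sdiff] at hw
      exact absurd (hfull w hw.1 hwN) hw.2)
  -- rank
  let idx : V → ℕ := fun v => (Function.invFun c v).val
  have hidx : ∀ i, idx (c i) = i.val := by
    intro i
    simp only [idx]
    rw [Function.leftInverse_invFun hc.inj i]
  let ρ : V → ℕ := fun v => if idx v < k.val then idx v else n + 1 - idx v
  have huT : c 0 ∉ insert (c k) (S \ rng c) := by
    rw [Finset.mem_insert, Finset.mem_sdiff, mem_rng]
    rintro (h | h)
    · exact hk (hc.inj h).symm
    · exact h.2 ⟨0, rfl⟩
  have hsub : insert (c k) (S \ rng c) ⊆ S :=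
    Finset.insert_subset (hc.mem k) Finset.sdiff_subset
  have hcard : (S \ insert (c k) (S \ rng c)).card =
      ((S \ insert (c k) (S \ rng c)).card - 1) + 1 := by
    have : 0 < (S \ insert (c k) (S \ rng c)).card :=
      Finset.card_pos.2 ⟨c 0, Finset.mem_sdiff.2 ⟨hc.mem 0, huT⟩⟩
    omega
  obtain ⟨f', hf', hf''⟩ := extend_rank N hN S hout hin (c 0) (hc.mem 0) ρ _ _ _ hsub huT hcard hv1
    (by
      intro w hwS hwT hwu
      rw [Finset.mem_insert, Finset.mem_sdiff, not_or] at hwT
      obtain ⟨hwx, hwr⟩ := hwT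
      have hwr' : w ∈ rng c := by
        by_contra h'
        exact hwr ⟨hwS, h'⟩
      obtain ⟨i, rfl⟩ := (mem_rng c w).1 hwr'
      have hi0 : i ≠ 0 := fun h => hwu (by rw [h])
      have hik : i ≠ k := fun h => hwx (by rw [h])
      have hi0' : 0 < i.val := Nat.pos_of_ne_zero (fun h => hi0 (Fin.ext h))
      have hik' : i.val ≠ k.val := fun h => hik (Fin.ext h)
      have hmemT : ∀ j : Fin (n + 1), j ≠ k → c j ∉ insert (c k) (S \ rng c) := by
        intro j hj
        rw [Finset.mem_insert, Finset.mem_sdiff, mem_rng]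
        rintro (h | h)
        · exact hj (hc.inj h)
        · exact h.2 ⟨j, rfl⟩
      rcases Nat.lt_or_gt_of_ne hik' with hlt | hgt
      · -- predecessor
        have hj : (i - 1).val = i.val - 1 := by
          rw [Fin.val_sub_one_of_ne_zero hi0]
        refine ⟨c (i - 1), hc.mem _, hmemT _ ?_, ?_, Or.inr ?_⟩
        · intro h
          have := congrArg Fin.val h
          omega
        · simp only [ρ, hidx, hj]
          rw [if_pos (by omega), if_pos hlt]
          omega
        · have := hc.arc (i - 1)
          rwa [sub_add_cancel] at this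
      · -- successor
        have hj : (i + 1).val = if i = Fin.last n then 0 else i.val + 1 := Fin.val_add_one i
        refine ⟨c (i + 1), hc.mem _, hmemT _ ?_, ?_, Or.inl (hc.arc i)⟩
        · intro h
          have := congrArg Fin.val h
          rw [hj] at this
          split_ifs at this <;> omega
        · simp only [ρ, hidx, hj]
          have := i.isLt
          split_ifs <;> omega)
  have hpx : f' (c k) = f₀ u' := by
    rw [hf'' (c k) (Finset.mem_insert_self _ _), Function.update_self]
  have hne : c k ≠ u' := by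
    rintro rfl
    exact hu' ((mem_rng c _).2 ⟨k, rfl⟩)
  have hpu : f' u' = f₀ u' := by
    rw [hf'' u' (Finset.mem_insert_of_mem (Finset.mem_sdiff.2 ⟨hu'S, hu'⟩)),
      Function.update_of_ne hne.symm]
  exact place_last N S (c 0) (hc.mem 0) (hN _) (hout _ (hc.mem 0)) (hin _ (hc.mem 0)) f' hf'
    (c k) u' (hc.mem k) hu'S hne (by rw [hpx, hpu]) h

theorem success (N : V → Finset V) (hN : ∀ v, v ∉ N v) (S : Finset V)
    (hout : ∀ v ∈ S, (N v ∩ S).card ≤ 3) (hin : ∀ v ∈ S, (S.filter (fun w => v ∈ N w)).card ≤ 3)
    {n : ℕ} (c : Fin (n + 1) → V) (hc : Cyc N S n c)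
    (f₀ : V → Fin 3) (hf₀ : Valid N (S \ rng c) f₀)
    (a k : Fin (n + 1)) (u' : V) (hu'S : u' ∈ S) (hu' : u' ∉ rng c)
    (hfull : (∀ w ∈ S, w ∈ N (c k) → w ∈ rng c) ∨ (∀ w ∈ S, c k ∈ N w → w ∈ rng c))
    (h : (c k ∈ N (c a) ∧ u' ∈ N (c a)) ∨ (c a ∈ N (c k) ∧ c a ∈ N u')) :
    ∃ f, Valid N S f := by
  have hak : k ≠ a := by
    rintro rfl
    rcases h with h | h
    · exact hN _ h.1
    · exact hN _ h.1
  have h1 : (fun i => c (i + a)) (k - a) = c k := by simp
  have h2 : (fun i => c (i + a)) 0 = c a := by simp
  refine success0 N hN S hout hin (fun i => c (i + a)) (hc.rotate a) f₀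
    (by rwa [rng_rotate]) (k - a) (sub_ne_zero.2 hak) u' hu'S (by rwa [rng_rotate]) ?_ ?_
  · rw [sub_add_cancel, rng_rotate]; exact hfull
  · rw [sub_add_cancel, zero_add]; exact h


def OutFull (N : V → Finset V) (S C : Finset V) (x : V) : Prop := ∀ w ∈ S, w ∈ N x → w ∈ C

def InFull (N : V → Finset V) (S C : Finset V) (x : V) : Prop := ∀ w ∈ S, x ∈ N w → w ∈ C

/-- either a valid partition of `S` exists or all vertices of the cycle are full -/
theorem success_or_full (N : V → Finset V) (hN : ∀ v, v ∉ N v) (S : Finset V)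
    (hout : ∀ v ∈ S, (N v ∩ S).card ≤ 3) (hin : ∀ v ∈ S, (S.filter (fun w => v ∈ N w)).card ≤ 3)
    {n : ℕ} (c : Fin (n + 1) → V) (hc : Cyc N S n c)
    (f₀ : V → Fin 3) (hf₀ : Valid N (S \ rng c) f₀)
    (hlast : OutFull N S (rng c) (c (Fin.last n))) :
    (∃ f, Valid N S f) ∨ ∀ i, OutFull N S (rng c) (c i) ∧ InFull N S (rng c) (c i) := by
  by_cases hex : ∃ f, Valid N S f
  · exact Or.inl hex
  right
  have c1 : ∀ i j : Fin (n + 1), c j ∈ N (c i) →
      (OutFull N S (rng c) (c j) ∨ InFull N S (rng c) (c j)) → OutFull N S (rng c) (c i) := by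
    intro i j hij hj w hwS hwN
    by_contra hw
    exact hex (success N hN S hout hin c hc f₀ hf₀ i j w hwS hw hj (Or.inl ⟨hij, hwN⟩))
  have c2 : ∀ i j : Fin (n + 1), c i ∈ N (c j) →
      (OutFull N S (rng c) (c j) ∨ InFull N S (rng c) (c j)) → InFull N S (rng c) (c i) := by
    intro i j hij hj w hwS hwN
    by_contra hw
    exact hex (success N hN S hout hin c hc f₀ hf₀ i j w hwS hw hj (Or.inr ⟨hij, hwN⟩))
  have hallout : ∀ i, OutFull N S (rng c) (c i) := by
    intro i
    induction i using Fin.reverseInduction with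
    | last => exact hlast
    | cast i ih =>
      refine c1 i.castSucc i.succ ?_ (Or.inl ih)
      have := hc.arc i.castSucc
      rwa [Fin.coeSucc_eq_succ] at this
  intro i
  refine ⟨hallout i, ?_⟩
  refine c2 i (i - 1) ?_ (Or.inl (hallout _))
  have := hc.arc (i - 1)
  rwa [sub_add_cancel] at this

/-- the Hamiltonian case, `u = c 0`, and `c 0 → c l` a chord of minimal length -/
theorem hamil0 (N : V → Finset V) (hN : ∀ v, v ∉ N v) (S : Finset V)
    (hout : ∀ v ∈ S, (N v ∩ S).card = 3) (hin : ∀ v ∈ S, (S.filter (fun w => v ∈ N w)).card ≤ 3)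
    {n : ℕ} (c : Fin (n + 1) → V) (hc : Cyc N S n c)
    (f₀ : V → Fin 3) (hf₀ : Valid N (S \ rng c) f₀)
    (hfull : ∀ i, OutFull N S (rng c) (c i) ∧ InFull N S (rng c) (c i))
    (l : Fin (n + 1)) (hl : 2 ≤ l.val) (hlarc : c l ∈ N (c 0))
    (hmin : ∀ i s : Fin (n + 1), 2 ≤ s.val → c (i + s) ∈ N (c i) → l.val ≤ s.val) :
    ∃ f, Valid N S f := by
  have hn : 2 ≤ n := by have := l.isLt; omega
  have h1val : (1 : Fin (n + 1)).val = 1 := by
    rw [Fin.val_one']
    exact Nat.mod_eq_of_lt (by omega)
  have h0val : (0 : Fin (n + 1)).val = 0 := rfl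
  have h1l : (1 : Fin (n + 1)) ≠ l := by
    intro h
    have := congrArg Fin.val h
    rw [h1val] at this
    omega
  have h10 : (1 : Fin (n + 1)) ≠ 0 := by
    intro h
    have := congrArg Fin.val h
    rw [h1val, h0val] at this
    omega
  have hl0 : l ≠ 0 := by
    intro h
    have := congrArg Fin.val h
    rw [h0val] at this
    omega
  have hpq : c 1 ≠ c l := fun h => h1l (hc.inj h)
  -- the start
  have hv1 : Valid N (insert (c 1) (insert (c l) (S \ rng c)))
      (Function.update (Function.update f₀ (c l) 0) (c 1) 0) := by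
    intro i
    have hnot : ∀ j, c j ∉ S \ rng c := by
      intro j h
      exact (Finset.mem_sdiff.1 h).2 ((mem_rng c _).2 ⟨j, rfl⟩)
    have hfil : (S \ rng c).filter
        (fun v => Function.update (Function.update f₀ (c l) 0) (c 1) 0 v = i) =
        (S \ rng c).filter (fun v => f₀ v = i) := by
      apply Finset.filter_congr
      intro w hw
      rw [Function.update_of_ne, Function.update_of_ne]
      · rintro rfl; exact hnot _ hw
      · rintro rfl; exact hnot _ hw
    rw [Finset.filter_insert, Finset.filter_insert, hfil, Function.update_self,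
      Function.update_of_ne hpq.symm, Function.update_self]
    by_cases hi : (0 : Fin 3) = i
    · subst hi
      rw [if_pos rfl, if_pos rfl]
      have hg := good_union N {c 1, c l} ((S \ rng c).filter (fun v => f₀ v = 0))
        (good_pair N (c 1) (c l) hpq (hN _) (hN _)) (hf₀ 0)
        (by
          rw [Finset.disjoint_left]
          intro w hw hw'
          rw [Finset.mem_insert, Finset.mem_singleton] at hw
          rw [Finset.mem_filter] at hw'
          rcases hw with rfl | rfl
          · exact hnot _ hw'.1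
          · exact hnot _ hw'.1)
        (by
          intro v hv w hw hwN
          rw [Finset.mem_insert, Finset.mem_singleton] at hv
          rw [Finset.mem_filter, Finset.mem_sdiff] at hw
          rcases hv with rfl | rfl
          · exact hw.1.2 ((hfull _).1 w hw.1.1 hwN)
          · exact hw.1.2 ((hfull _).1 w hw.1.1 hwN))
        (by
          intro w hw v hv hwN
          rw [Finset.mem_insert, Finset.mem_singleton] at hv
          rw [Finset.mem_filter, Finset.mem_sdiff] at hw
          rcases hv with rfl | rfl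
          · exact hw.1.2 ((hfull _).2 w hw.1.1 hwN)
          · exact hw.1.2 ((hfull _).2 w hw.1.1 hwN))
      have he : {c 1, c l} ∪ (S \ rng c).filter (fun v => f₀ v = 0) =
          insert (c 1) (insert (c l) ((S \ rng c).filter (fun v => f₀ v = 0))) := by
        ext w
        simp only [Finset.mem_union, Finset.mem_insert, Finset.mem_singleton]
        tauto
      rwa [he] at hg
    · rw [if_neg hi, if_neg hi]
      exact hf₀ i
  let idx : V → ℕ := fun v => (Function.invFun c v).val
  have hidx : ∀ i, idx (c i) = i.val := by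
    intro i
    simp only [idx]
    rw [Function.leftInverse_invFun hc.inj i]
  let ρ : V → ℕ := fun v => if idx v = 0 then 0 else if idx v < l.val then n + 1 + idx v
    else n + 1 - idx v
  set T : Finset V := insert (c 1) (insert (c l) (S \ rng c)) with hTdef
  have hmemT : ∀ j : Fin (n + 1), j ≠ 1 → j ≠ l → c j ∉ T := by
    intro j hj hjl
    rw [hTdef, Finset.mem_insert, Finset.mem_insert, Finset.mem_sdiff, mem_rng]
    rintro (h | h | h)
    · exact hj (hc.inj h)
    · exact hjl (hc.inj h)
    · exact h.2 ⟨j, rfl⟩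
  have huT : c 0 ∉ T := hmemT 0 h10.symm hl0.symm
  have hsub : T ⊆ S := Finset.insert_subset (hc.mem _)
    (Finset.insert_subset (hc.mem _) Finset.sdiff_subset)
  have hcard : (S \ T).card = ((S \ T).card - 1) + 1 := by
    have : 0 < (S \ T).card :=
      Finset.card_pos.2 ⟨c 0, Finset.mem_sdiff.2 ⟨hc.mem 0, huT⟩⟩
    omega
  obtain ⟨f', hf', hf''⟩ := extend_rank N hN S (fun v hv => (hout v hv).le) hin (c 0) (hc.mem 0) ρ
    _ _ _ hsub huT hcard hv1
    (by
      intro w hwS hwT hwu
      rw [hTdef, Finset.mem_insert, Finset.mem_insert, Finset.mem_sdiff, not_or, not_or] at hwT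
      obtain ⟨hw1, hwl, hwr⟩ := hwT
      have hwr' : w ∈ rng c := by
        by_contra h'
        exact hwr ⟨hwS, h'⟩
      obtain ⟨i, rfl⟩ := (mem_rng c w).1 hwr'
      have hi0 : i ≠ 0 := fun h => hwu (by rw [h])
      have hi1 : i ≠ 1 := fun h => hw1 (by rw [h])
      have hil : i ≠ l := fun h => hwl (by rw [h])
      have hi0' : 0 < i.val := Nat.pos_of_ne_zero (fun h => hi0 (Fin.ext h))
      have hi1' : i.val ≠ 1 := fun h => hi1 (Fin.ext (by rw [h1val]; exact h))
      have hil' : i.val ≠ l.val := fun h => hil (Fin.ext h)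
      have hρi : ρ (c i) = if i.val < l.val then n + 1 + i.val else n + 1 - i.val := by
        simp only [ρ, hidx]
        rw [if_neg (by omega)]
      rcases Nat.lt_or_gt_of_ne hil' with hlt | hgt
      · by_cases hi2 : i.val = 2
        · -- the chord argument
          have hcard3 : (N (c i) ∩ S).card = 3 := hout _ (hc.mem i)
          obtain ⟨z, hz, hz3, hz1⟩ : ∃ z ∈ N (c i) ∩ S, z ≠ c (i + 1) ∧ z ≠ c 1 := by
            have : 0 < (((N (c i) ∩ S).erase (c (i + 1))).erase (c 1)).card := by
              have h1 := Finset.pred_card_le_card_erase (s := N (c i) ∩ S) (a := c (i + 1))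
              have h2 := Finset.pred_card_le_card_erase
                (s := (N (c i) ∩ S).erase (c (i + 1))) (a := c 1)
              omega
            obtain ⟨z, hz⟩ := Finset.card_pos.1 this
            rw [Finset.mem_erase, Finset.mem_erase] at hz
            exact ⟨z, hz.2.2, hz.2.1, hz.1⟩
          rw [Finset.mem_inter] at hz
          have hzr := (hfull i).1 z hz.2 hz.1
          obtain ⟨j, rfl⟩ := (mem_rng c z).1 hzr
          have hj1 : j ≠ 1 := fun h => hz1 (by rw [h])
          have hji1 : j ≠ i + 1 := fun h => hz3 (by rw [h])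
          have hji : j ≠ i := fun h => hN _ (h ▸ hz.1)
          have hj1' : j.val ≠ 1 := fun h => hj1 (Fin.ext (by rw [h1val]; exact h))
          have hji' : j.val ≠ i.val := fun h => hji (Fin.ext h)
          have hi1val : (i + 1).val = i.val + 1 := by
            rw [Fin.val_add_one i, if_neg]
            intro h
            have := congrArg Fin.val h
            rw [Fin.val_last] at this
            have := l.isLt
            omega
          have hji1' : j.val ≠ i.val + 1 := fun h => hji1 (Fin.ext (by rw [hi1val]; exact h))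
          have hkey : j.val = 0 ∨ l.val + 2 ≤ j.val := by
            by_contra hcon
            rw [not_or, not_le] at hcon
            have hs : (j - i).val = j.val - i.val := by
              rw [Fin.sub_val_of_le]
              rw [Fin.le_def]; omega
            have := hmin i (j - i) (by omega) (by rw [add_sub_cancel]; exact hz.1)
            omega
          have hjl : j ≠ l := fun h => by
            have := congrArg Fin.val h
            omega
          refine ⟨c j, hc.mem _, hmemT j hj1 hjl, ?_, Or.inl hz.1⟩
          rw [hρi, if_pos hlt]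
          simp only [ρ, hidx]
          split_ifs <;> omega
        · -- predecessor
          have hj : (i - 1).val = i.val - 1 := by
            rw [Fin.val_sub_one_of_ne_zero hi0]
          refine ⟨c (i - 1), hc.mem _, hmemT _ ?_ ?_, ?_, Or.inr ?_⟩
          · intro h
            have := congrArg Fin.val h
            rw [h1val] at this
            omega
          · intro h
            have := congrArg Fin.val h
            omega
          · rw [hρi, if_pos hlt]
            simp only [ρ, hidx, hj]
            split_ifs <;> omega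
          · have := hc.arc (i - 1)
            rwa [sub_add_cancel] at this
      · -- successor
        have hj : (i + 1).val = if i = Fin.last n then 0 else i.val + 1 := Fin.val_add_one i
        refine ⟨c (i + 1), hc.mem _, hmemT _ ?_ ?_, ?_, Or.inl (hc.arc i)⟩
        · intro h
          have := congrArg Fin.val h
          rw [hj, h1val] at this
          split_ifs at this <;> omega
        · intro h
          have := congrArg Fin.val h
          rw [hj] at this
          split_ifs at this <;> omega
        · rw [hρi, if_neg (by omega)]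
          simp only [ρ, hidx, hj]
          have := i.isLt
          split_ifs <;> omega)
  have hp1 : f' (c 1) = 0 := by
    rw [hf'' (c 1) (Finset.mem_insert_self _ _), Function.update_self]
  have hpl : f' (c l) = 0 := by
    rw [hf'' (c l) (Finset.mem_insert_of_mem (Finset.mem_insert_self _ _)),
      Function.update_of_ne hpq.symm, Function.update_self]
  have harc0 := hc.arc 0
  rw [zero_add] at harc0
  exact place_last N S (c 0) (hc.mem 0) (hN _) (hout _ (hc.mem 0)).le (hin _ (hc.mem 0)) f' hf'
    (c 1) (c l) (hc.mem _) (hc.mem _) hpq (by rw [hp1, hpl]) (Or.inl ⟨harc0, hlarc⟩)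


def IsPath (N : V → Finset V) (S : Finset V) (r : ℕ) (p : ℕ → V) : Prop :=
  (∀ i, i ≤ r → p i ∈ S) ∧ (∀ i, i < r → p (i + 1) ∈ N (p i)) ∧
    (∀ i j, i ≤ r → j ≤ r → p i = p j → i = j)

theorem exists_cycle (N : V → Finset V) (hN : ∀ v, v ∉ N v) (S : Finset V) (hS : S.Nonempty)
    (hout : ∀ v ∈ S, (N v ∩ S).Nonempty) :
    ∃ (n : ℕ) (c : Fin (n + 1) → V), Cyc N S n c ∧ OutFull N S (rng c) (c (Fin.last n)) := by
  have h0 : ∃ p, IsPath N S 0 p := by
    obtain ⟨v, hv⟩ := hS
    exact ⟨fun _ => v, fun _ _ => hv, fun i hi => absurd hi (Nat.not_lt_zero i),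
      fun i j hi hj _ => by omega⟩
  have hbd : ∀ r, (∃ p, IsPath N S r p) → r + 1 ≤ S.card := by
    rintro r ⟨p, h1, _, h3⟩
    have : ((Finset.range (r + 1)).image p).card = r + 1 := by
      rw [Finset.card_image_of_injOn, Finset.card_range]
      intro i hi j hj hij
      simp only [Finset.coe_range, Set.mem_Iio] at hi hj
      exact h3 i j (by omega) (by omega) hij
    rw [← this]
    apply Finset.card_le_card
    intro v hv
    rw [Finset.mem_image] at hv
    obtain ⟨i, hi, rfl⟩ := hv
    rw [Finset.mem_range] at hi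
    exact h1 i (by omega)
  obtain ⟨r, ⟨p, hp⟩, hmax⟩ : ∃ r, (∃ p, IsPath N S r p) ∧ ¬ ∃ p, IsPath N S (r + 1) p := by
    by_contra hcon
    push Not at hcon
    have : ∀ r, ∃ p, IsPath N S r p := by
      intro r
      induction r with
      | zero => exact h0
      | succ r ih => exact hcon r ih
    have := hbd _ (this S.card)
    omega
  obtain ⟨h1, h2, h3⟩ := hp
  have hend : ∀ y ∈ S, y ∈ N (p r) → ∃ i, i ≤ r ∧ p i = y := by
    intro y hyS hyN
    by_contra hcon
    push Not at hcon
    apply hmax
    refine ⟨fun i => if i ≤ r then p i else y, ?_, ?_, ?_⟩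
    · intro i hi
      simp only
      split_ifs with h
      · exact h1 i h
      · exact hyS
    · intro i hi
      simp only
      rw [if_pos (by omega : i ≤ r)]
      split_ifs with h
      · exact h2 i (by omega)
      · have : i = r := by omega
        rw [this]; exact hyN
    · intro i j hi hj hij
      simp only at hij
      split_ifs at hij with ha hb hb
      · exact h3 i j ha hb hij
      · exact absurd hij (hcon i ha)
      · exact absurd hij.symm (hcon j hb)
      · omega
  classical
  have hexj : ∃ j, j ≤ r ∧ p j ∈ N (p r) := by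
    obtain ⟨y, hy⟩ := hout (p r) (h1 r le_rfl)
    rw [Finset.mem_inter] at hy
    obtain ⟨i, hi, hiy⟩ := hend y hy.2 hy.1
    exact ⟨i, hi, by rw [hiy]; exact hy.1⟩
  set j := Nat.find hexj with hj
  obtain ⟨hjr, hjN⟩ := Nat.find_spec hexj
  rw [← hj] at hjr hjN
  have hjmin : ∀ i, i ≤ r → p i ∈ N (p r) → j ≤ i := fun i hi hiN =>
    Nat.find_min' hexj ⟨hi, hiN⟩
  refine ⟨r - j, fun i => p (j + i.val), ⟨?_, ?_, ?_⟩, ?_⟩
  · intro a b hab
    have := h3 _ _ (by have := a.isLt; omega) (by have := b.isLt; omega) hab
    exact Fin.ext (by omega)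
  · intro i
    exact h1 _ (by have := i.isLt; omega)
  · intro i
    rw [Fin.val_add_one i]
    split_ifs with h
    · rw [h, Fin.val_last, Nat.add_zero, Nat.add_sub_cancel' hjr]
      exact hjN
    · have : i.val ≠ r - j := fun h' => h (Fin.ext (by rw [Fin.val_last]; exact h'))
      have hi := i.isLt
      exact h2 (j + i.val) (by omega)
  · intro w hwS hwN
    simp only [Fin.val_last, Nat.add_sub_cancel' hjr] at hwN
    obtain ⟨i, hi, rfl⟩ := hend w hwS hwN
    have := hjmin i hi hwN
    rw [mem_rng]
    exact ⟨⟨i - j, by omega⟩, by simp only; congr 1; omega⟩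

/-- every finite set has a partition into three good sets -/
theorem exists_valid (N : V → Finset V) (hN : ∀ v, v ∉ N v) (hdeg : ∀ v, (N v).card ≤ 3) :
    ∀ (k : ℕ) (S : Finset V), S.card = k → ∃ f, Valid N S f := by
  intro k
  induction k using Nat.strong_induction_on with
  | _ k ih =>
  intro S hk
  by_cases hsmall : ∃ v ∈ S, (N v ∩ S).card ≤ 2 ∨ (S.filter (fun w => v ∈ N w)).card ≤ 2
  · obtain ⟨v, hv, h⟩ := hsmall
    have hlt : (S.erase v).card < k := by
      rw [Finset.card_erase_of_mem hv]
      have := Finset.card_pos.2 ⟨v, hv⟩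
      omega
    obtain ⟨f, hf⟩ := ih _ hlt (S.erase v) rfl
    have h' : (N v ∩ S.erase v).card ≤ 2 ∨ ((S.erase v).filter (fun w => v ∈ N w)).card ≤ 2 := by
      rcases h with h | h
      · left
        exact le_trans (Finset.card_le_card
          (Finset.inter_subset_inter_left (Finset.erase_subset v S))) h
      · right
        exact le_trans (Finset.card_le_card
          (Finset.filter_subset_filter _ (Finset.erase_subset v S))) h
    obtain ⟨i, hi⟩ := place N (S.erase v) v (Finset.notMem_erase v S) (hN v) f hf h'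
    rw [Finset.insert_erase hv] at hi
    exact ⟨_, hi⟩
  · push Not at hsmall
    have hout : ∀ v ∈ S, (N v ∩ S).card = 3 := by
      intro v hv
      have h1 := (hsmall v hv).1
      have h2 : (N v ∩ S).card ≤ (N v).card := Finset.card_le_card Finset.inter_subset_left
      have h3 := hdeg v
      omega
    have hin : ∀ v ∈ S, (S.filter (fun w => v ∈ N w)).card ≤ 3 := by
      have hsum : ∑ v ∈ S, (S.filter (fun w => v ∈ N w)).card = ∑ v ∈ S, 3 := by
        have h1 := Finset.sum_card_bipartiteAbove_eq_sum_card_bipartiteBelow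
          (s := S) (t := S) (fun v w => v ∈ N w)
        simp only [Finset.bipartiteAbove, Finset.bipartiteBelow] at h1
        rw [h1]
        apply Finset.sum_congr rfl
        intro v hv
        rw [← hout v hv]
        congr 1
        ext w
        simp [and_comm]
      intro v hv
      by_contra hcon
      rw [not_le] at hcon
      have : ∑ v ∈ S, 3 < ∑ v ∈ S, (S.filter (fun w => v ∈ N w)).card := by
        apply Finset.sum_lt_sum
        · intro w hw
          have := (hsmall w hw).2
          omega
        · exact ⟨v, hv, hcon⟩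
      omega
    rcases S.eq_empty_or_nonempty with rfl | hS
    · exact ⟨fun _ => 0, fun i => by simpa using good_empty N⟩
    · obtain ⟨n, c, hc, hlast⟩ := exists_cycle N hN S hS (by
        intro v hv
        rw [← Finset.card_pos, hout v hv]
        norm_num)
      have hlt : (S \ rng c).card < k := by
        rw [← hk]
        apply Finset.card_lt_card
        rw [Finset.ssubset_iff_of_subset Finset.sdiff_subset]
        refine ⟨c 0, hc.mem 0, ?_⟩
        rw [Finset.mem_sdiff, mem_rng]
        rintro ⟨_, h⟩
        exact h ⟨0, rfl⟩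
      obtain ⟨f₀, hf₀⟩ := ih _ hlt (S \ rng c) rfl
      rcases success_or_full N hN S (fun v hv => (hout v hv).le) hin c hc f₀ hf₀ hlast with h | hfull
      · exact h
      · -- minimal chord
        classical
        have hex : ∃ l : ℕ, 2 ≤ l ∧ ∃ s i : Fin (n + 1), s.val = l ∧ c (i + s) ∈ N (c i) := by
          obtain ⟨z, hz, hz1⟩ : ∃ z ∈ N (c 0) ∩ S, z ≠ c 1 := by
            have : 0 < ((N (c 0) ∩ S).erase (c 1)).card := by
              have h1 := Finset.pred_card_le_card_erase (s := N (c 0) ∩ S) (a := c 1)
              have h2 := hout (c 0) (hc.mem 0)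
              omega
            obtain ⟨z, hz⟩ := Finset.card_pos.1 this
            rw [Finset.mem_erase] at hz
            exact ⟨z, hz.2, hz.1⟩
          rw [Finset.mem_inter] at hz
          obtain ⟨s, rfl⟩ := (mem_rng c z).1 ((hfull 0).1 z hz.2 hz.1)
          have hs0 : s ≠ 0 := fun h => hN _ (h ▸ hz.1)
          have hs1 : s ≠ 1 := fun h => hz1 (by rw [h])
          refine ⟨s.val, ?_, s, 0, rfl, by rw [zero_add]; exact hz.1⟩
          by_contra hcon
          rw [not_le] at hcon
          have hs0' : s.val ≠ 0 := fun h => hs0 (Fin.ext h)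
          have hs1' : s.val = 1 := by omega
          apply hs1
          apply Fin.ext
          rw [Fin.val_one', hs1', Nat.mod_eq_of_lt]
          have := s.isLt
          omega
        obtain ⟨hl2, s, a, hs, has⟩ := Nat.find_spec hex
        have hmin : ∀ i s' : Fin (n + 1), 2 ≤ s'.val → c (i + s') ∈ N (c i) →
            Nat.find hex ≤ s'.val := fun i s' h1 h2 =>
          Nat.find_min' hex ⟨h1, s', i, rfl, h2⟩
        refine hamil0 N hN S hout hin (fun i => c (i + a)) (hc.rotate a) f₀
          (by rwa [rng_rotate]) ?_ s (by rw [hs]; exact hl2) ?_ ?_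
        · intro i
          rw [rng_rotate]
          exact hfull _
        · rw [zero_add, add_comm]
          exact has
        · intro i s' h1 h2
          rw [add_right_comm] at h2
          rw [hs]
          exact hmin _ s' h1 h2

end

/-- a majority 3-colouring -/
theorem majority {V : Type} [Fintype V] [DecidableEq V] (N : V → Finset V) (hN : ∀ v, v ∉ N v)
    (hdeg : ∀ v, (N v).card ≤ 3) :
    ∃ c : V → Fin 3, ∀ v, ((N v).filter (fun w => c w = c v)).card ≤ (N v).card / 2 := by
  obtain ⟨f, hf⟩ := exists_valid N hN hdeg _ Finset.univ rfl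
  -- class i may use the colours i (true) and i + 1 (false)
  have hx : ∀ i : Fin 3, ∃ x : V → Bool, ∀ v, f v = i →
      (x v = true → ((N v).filter (fun w => f w = i + 2)).card +
        ((N v).filter (fun w => f w = i ∧ x w = true)).card ≤ (N v).card / 2) ∧
      (x v = false → ((N v).filter (fun w => f w = i + 1)).card +
        ((N v).filter (fun w => f w = i ∧ x w = false)).card ≤ (N v).card / 2) := by
    intro i
    obtain ⟨x, hx⟩ := hf i (fun v => ((N v).filter (fun w => f w = i + 2)).card)
      (fun v => ((N v).filter (fun w => f w = i + 1)).card) (fun v => (N v).card / 2) (by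
        intro v hv
        have h1 : N v ∩ Finset.univ.filter (fun w => f w = i) =
            (N v).filter (fun w => f w = i) := by
          ext w; simp
        rw [h1]
        have h2 : ((N v).filter (fun w => f w = i + 2)).card +
            ((N v).filter (fun w => f w = i + 1)).card +
            ((N v).filter (fun w => f w = i)).card = (N v).card := by
          have e := Finset.card_eq_sum_card_fiberwise (f := f) (s := N v)
            (t := Finset.univ) (fun _ _ => Finset.mem_coe.2 (Finset.mem_univ _))
          rw [Fin.sum_univ_three] at e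
          rw [e]
          fin_cases i
          · simp only [Fin.zero_eta, Fin.isValue, zero_add]
            omega
          · have h3 : (1 + 2 : Fin 3) = 0 := rfl
            have h4 : (1 + 1 : Fin 3) = 2 := rfl
            simp only [Fin.mk_one, Fin.isValue, h3, h4]
            omega
          · have h3 : (2 + 2 : Fin 3) = 1 := rfl
            have h4 : (2 + 1 : Fin 3) = 0 := rfl
            simp only [Fin.reduceFinMk, Fin.isValue, h3, h4]
            omega
        omega)
    refine ⟨x, fun v hv => ?_⟩
    have h1 : ∀ b : Bool, (N v ∩ Finset.univ.filter (fun w => f w = i)).filter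
        (fun w => x w = b) = (N v).filter (fun w => f w = i ∧ x w = b) := by
      intro b
      ext w
      simp [and_assoc]
    have := hx v (by simp [hv])
    rw [h1, h1] at this
    exact this
  choose x hx using hx
  refine ⟨fun v => if x (f v) v = true then f v else f v + 1, fun v => ?_⟩
  have hkey : ∀ i j : Fin 3, j ≠ i → j ≠ i + 1 → j = i + 2 := by decide
  have hd1 : ∀ i : Fin 3, i + 1 ≠ i := by decide
  have hd2 : ∀ i : Fin 3, i + 1 + 1 ≠ i := by decide
  have hd3 : ∀ i : Fin 3, i + 2 ≠ i + 1 := by decide
  have hd4 : ∀ i : Fin 3, i + 2 + 1 ≠ i + 1 := by decide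
  rcases hb : x (f v) v with _ | _
  · -- colour f v + 1
    have h := (hx (f v) v rfl).2 hb
    refine le_trans ?_ h
    rw [← Finset.card_union_of_disjoint]
    · apply Finset.card_le_card
      intro w hw
      rw [Finset.mem_filter] at hw
      rw [Finset.mem_union, Finset.mem_filter, Finset.mem_filter]
      obtain ⟨hwN, hw⟩ := hw
      simp only [hb, Bool.false_eq_true, if_false] at hw
      by_cases h1 : f w = f v
      · right
        refine ⟨hwN, h1, ?_⟩
        by_contra h2
        rw [Bool.not_eq_false] at h2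
        rw [h1, if_pos h2] at hw
        exact hd1 _ hw.symm
      · by_cases h2 : f w = f v + 1
        · left; exact ⟨hwN, h2⟩
        · exfalso
          have h3 := hkey _ _ h1 h2
          rw [h3] at hw
          split_ifs at hw
          · exact hd3 _ hw
          · exact hd4 _ hw
    · rw [Finset.disjoint_left]
      intro w hw hw'
      rw [Finset.mem_filter] at hw hw'
      rw [hw'.2.1] at hw
      exact hd1 _ hw.2.symm
  · have h := (hx (f v) v rfl).1 hb
    refine le_trans ?_ h
    rw [← Finset.card_union_of_disjoint]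
    · apply Finset.card_le_card
      intro w hw
      rw [Finset.mem_filter] at hw
      rw [Finset.mem_union, Finset.mem_filter, Finset.mem_filter]
      obtain ⟨hwN, hw⟩ := hw
      simp only [hb, if_true] at hw
      by_cases h1 : f w = f v
      · right
        refine ⟨hwN, h1, ?_⟩
        by_contra h2
        rw [h1, if_neg h2] at hw
        exact hd1 _ hw
      · by_cases h2 : f w = f v + 1
        · exfalso
          rw [h2] at hw
          split_ifs at hw
          · exact hd1 _ hw
          · exact hd2 _ hw
        · left; exact ⟨hwN, hkey _ _ h1 h2⟩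
    · rw [Finset.disjoint_left]
      intro w hw hw'
      rw [Finset.mem_filter] at hw hw'
      rw [hw'.2.1] at hw
      have : ∀ i : Fin 3, i ≠ i + 2 := by decide
      exact this _ hw.2

/-! ### Tails -/

theorem tails {V : Type} [DecidableEq V] (T : Set (Finset V)) (v : V)
    (h2 : ∀ t ∈ T, t.card = 2) (hv : ∀ t ∈ T, v ∉ t)
    (hint : ∀ s ∈ T, ∀ t ∈ T, (s ∩ t).Nonempty) :
    ∃ M : Finset V, v ∉ M ∧ M.card ≤ 3 ∧ ∀ t ∈ T, M.card / 2 < (t ∩ M).card := by
  by_cases hT : T = ∅
  · subst hT
    exact ⟨∅, by simp, by simp, by simp⟩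
  obtain ⟨t₀, ht₀⟩ := Set.nonempty_iff_ne_empty.2 hT
  obtain ⟨a, b, hab, rfl⟩ := Finset.card_eq_two.1 (h2 t₀ ht₀)
  have hva : v ≠ a := by rintro rfl; exact hv _ ht₀ (by simp)
  have hvb : v ≠ b := by rintro rfl; exact hv _ ht₀ (by simp)
  have star : ∀ z, v ≠ z → (∀ t ∈ T, z ∈ t) →
      ∃ M : Finset V, v ∉ M ∧ M.card ≤ 3 ∧ ∀ t ∈ T, M.card / 2 < (t ∩ M).card := by
    intro z hvz hz
    refine ⟨{z}, by simpa using hvz, by simp, fun t ht => ?_⟩
    rw [Finset.inter_singleton_of_mem (hz t ht)]
    simp
  by_cases ha : ∀ t ∈ T, a ∈ t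
  · exact star a hva ha
  by_cases hb : ∀ t ∈ T, b ∈ t
  · exact star b hvb hb
  push Not at ha hb
  obtain ⟨t₁, ht₁, ha₁⟩ := ha
  obtain ⟨t₂, ht₂, hb₂⟩ := hb
  have hb₁ : b ∈ t₁ := by
    obtain ⟨z, hz⟩ := hint _ ht₀ _ ht₁
    rw [Finset.mem_inter, Finset.mem_insert, Finset.mem_singleton] at hz
    rcases hz with ⟨rfl | rfl, hz⟩
    · exact absurd hz ha₁
    · exact hz
  have ha₂ : a ∈ t₂ := by
    obtain ⟨z, hz⟩ := hint _ ht₀ _ ht₂
    rw [Finset.mem_inter, Finset.mem_insert, Finset.mem_singleton] at hz
    rcases hz with ⟨rfl | rfl, hz⟩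
    · exact hz
    · exact absurd hz hb₂
  obtain ⟨z, hz⟩ := hint _ ht₁ _ ht₂
  rw [Finset.mem_inter] at hz
  have hza : z ≠ a := by rintro rfl; exact ha₁ hz.1
  have hzb : z ≠ b := by rintro rfl; exact hb₂ hz.2
  have e₁ : {b, z} = t₁ := by
    apply Finset.eq_of_subset_of_card_le
    · intro w hw
      rw [Finset.mem_insert, Finset.mem_singleton] at hw
      rcases hw with rfl | rfl
      · exact hb₁
      · exact hz.1
    · rw [h2 _ ht₁, Finset.card_pair hzb.symm]
  have e₂ : {a, z} = t₂ := by
    apply Finset.eq_of_subset_of_card_le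
    · intro w hw
      rw [Finset.mem_insert, Finset.mem_singleton] at hw
      rcases hw with rfl | rfl
      · exact ha₂
      · exact hz.2
    · rw [h2 _ ht₂, Finset.card_pair hza.symm]
  have hvz : v ≠ z := by rintro rfl; exact hv _ ht₁ hz.1
  have hM : ({a, b, z} : Finset V).card = 3 := by
    rw [Finset.card_eq_three]
    exact ⟨a, b, z, hab, hza.symm, hzb.symm, rfl⟩
  refine ⟨{a, b, z}, by simp [hva, hvb, hvz], hM.le, fun t ht => ?_⟩
  rw [hM]
  have k0 := hint t ht _ ht₀
  have k1 := hint t ht _ ht₁
  have k2 := hint t ht _ ht₂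
  rw [← e₁] at k1
  rw [← e₂] at k2
  have hmem : ∀ {p q : V}, (t ∩ {p, q}).Nonempty → p ∈ t ∨ q ∈ t := by
    rintro p q ⟨w, hw⟩
    rw [Finset.mem_inter, Finset.mem_insert, Finset.mem_singleton] at hw
    rcases hw with ⟨hw, rfl | rfl⟩
    · exact Or.inl hw
    · exact Or.inr hw
  have h0 := hmem k0
  have h1 := hmem k1
  have h2' := hmem k2
  have two : ∀ p q : V, p ≠ q → p ∈ t → q ∈ t → p ∈ ({a, b, z} : Finset V) →
      q ∈ ({a, b, z} : Finset V) → 3 / 2 < (t ∩ {a, b, z}).card := by
    intro p q hpq hp hq hp' hq'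
    have : ({p, q} : Finset V) ⊆ t ∩ {a, b, z} := by
      intro w hw
      rw [Finset.mem_insert, Finset.mem_singleton] at hw
      rcases hw with rfl | rfl
      · exact Finset.mem_inter.2 ⟨hp, hp'⟩
      · exact Finset.mem_inter.2 ⟨hq, hq'⟩
    have := Finset.card_le_card this
    rw [Finset.card_pair hpq] at this
    omega
  by_cases q0 : a ∈ t
  · rcases h1 with h1 | h1
    · exact two a b hab q0 h1 (by simp) (by simp)
    · exact two a z hza.symm q0 h1 (by simp) (by simp)
  · have hbt : b ∈ t := by tauto
    have hzt : z ∈ t := by tauto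
    exact two b z hzb.symm hbt hzt (by simp) (by simp)

/-- Every finite `2→1` hypergraph that avoids `I₀` has a proper 3-colouring. -/
theorem result (V : Type) [Finite V] (H : TwoOneHypergraph V) (hH : AvoidsI0 H) :
    ∃ col : V → Fin 3, IsProper H col := by
  classical
  haveI := Fintype.ofFinite V
  have hM : ∀ v : V, ∃ M : Finset V, v ∉ M ∧ M.card ≤ 3 ∧
      ∀ t, (t, v) ∈ H.edges → M.card / 2 < (t ∩ M).card := by
    intro v
    refine tails {t | (t, v) ∈ H.edges} v (fun t ht => H.card_tail _ ht)
      (fun t ht => H.head_notMem _ ht) ?_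
    intro s hs t ht
    by_contra hcon
    rw [Finset.not_nonempty_iff_eq_empty] at hcon
    apply hH
    have hsv := H.head_notMem _ hs
    have htv := H.head_notMem _ ht
    obtain ⟨a, b, hab, hs'⟩ := Finset.card_eq_two.1 (H.card_tail _ hs)
    obtain ⟨c, d, hcd, ht'⟩ := Finset.card_eq_two.1 (H.card_tail _ ht)
    simp only at hs' ht' hsv htv
    subst hs' ht'
    have hdis : ∀ x, x ∈ ({a, b} : Finset V) → x ∈ ({c, d} : Finset V) → False := by
      intro x hx hx'
      have : x ∈ ({a, b} ∩ {c, d} : Finset V) := Finset.mem_inter.2 ⟨hx, hx'⟩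
      rw [hcon] at this
      simp at this
    refine ⟨a, b, c, d, v, ?_, ⟨{a, b}, hs, by simp⟩, ⟨{c, d}, ht, by simp⟩⟩
    have k1 := hdis a (by simp)
    have k2 := hdis b (by simp)
    simp only [Finset.mem_insert, Finset.mem_singleton, not_or] at k1 k2 hsv htv
    simp only [List.nodup_cons, List.mem_cons, List.not_mem_nil, or_false, not_or,
      List.nodup_nil, not_false_iff, and_true]
    refine ⟨⟨hab, fun h => k1 (Or.inl h), fun h => k1 (Or.inr h), fun h => hsv.1 h.symm⟩,
      ⟨fun h => k2 (Or.inl h), fun h => k2 (Or.inr h), fun h => hsv.2 h.symm⟩,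
      ⟨hcd, fun h => htv.1 h.symm⟩, fun h => htv.2 h.symm⟩
  choose M hM1 hM2 hM3 using hM
  obtain ⟨col, hcol⟩ := majority M hM1 hM2
  refine ⟨col, ?_⟩
  rintro ⟨t, v⟩ he hmono
  simp only at hmono
  have h1 := hM3 v t he
  have h2 := hcol v
  have h3 : t ∩ M v ⊆ (M v).filter (fun w => col w = col v) := by
    intro w hw
    rw [Finset.mem_inter] at hw
    exact Finset.mem_filter.2 ⟨hw.2, hmono w hw.1⟩
  have h4 := Finset.card_le_card h3
  omega

end Pool.Agent.Results.MP_28691e_co.ThreeColourable
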